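import Pool.Agent.N534.PS.Gen

/-!
# Averages over the box
-/

set_option autoImplicit false

namespace Pool.Agent.N534.PS

open Finset Filter Topology
open Pool.Agent.Y722.HS (EM red box EB EM_mono EM_const p_pos card_box)

variable {ι : Type} [Fintype ι] [DecidableEq ι]
variable {D : ℝ} {w p0 : ℕ} {T : ∀ p : ℕ, ℕ → (ι → ZMod p) → ℝ} {Bad : ∀ p : ℕ, (ι → ZMod p) → Prop}

/-- from a majorant to sums over subsets and to almost all members -/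
theorem avg_of (C : ℝ) (hC : 0 < C) (H : ℕ) (L : (ι → ℤ) → ℂ → ℂ) (R : Set ℂ) (M : (ι → ℤ) → ℝ)
    (hM0 : ∀ c, 0 ≤ M c) (hM1 : EB H M ≤ C) (hM2 : ∀ c, ∀ u ∈ R, ‖L c u‖ ^ 2 ≤ M c) :
    (∀ S ⊆ box ι H, ∀ u : (ι → ℤ) → ℂ, (∀ c ∈ S, u c ∈ R) →
      ∑ c ∈ S, ‖L c (u c)‖ ^ 2 ≤ C * (box ι H).card) ∧
    (∀ δ : ℝ, 0 < δ → ∃ X ⊆ box ι H, (X.card : ℝ) ≤ δ * (box ι H).card ∧
      ∀ c ∈ box ι H \ X, ∀ u ∈ R, ‖L c u‖ ≤ Real.sqrt (C / δ)) := by
  have hB : (0 : ℝ) < (2 * H + 1 : ℝ) ^ Fintype.card ι := by positivity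
  have hcard : ((box ι H).card : ℝ) = (2 * H + 1 : ℝ) ^ Fintype.card ι := card_box H
  have hsum : ∑ c ∈ box ι H, M c ≤ C * (box ι H).card := by
    have e3 : EB H M = (∑ c ∈ box ι H, M c) / (2 * H + 1 : ℝ) ^ Fintype.card ι := rfl
    rw [e3, div_le_iff₀ hB, ← hcard] at hM1
    exact hM1
  refine ⟨fun S hS u hu => ?_, fun δ hδ => ?_⟩
  · calc _ ≤ ∑ c ∈ S, M c := Finset.sum_le_sum fun c hc => hM2 c (u c) (hu c hc)
      _ ≤ ∑ c ∈ box ι H, M c := Finset.sum_le_sum_of_subset_of_nonneg hS fun c _ _ => hM0 c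
      _ ≤ _ := hsum
  · refine ⟨(box ι H).filter (fun c => C / δ < M c), Finset.filter_subset _ _, ?_, ?_⟩
    · have h1 : (((box ι H).filter (fun c => C / δ < M c)).card : ℝ) *
          (C / δ) ≤ ∑ c ∈ (box ι H).filter (fun c => C / δ < M c), M c := by
        rw [← nsmul_eq_mul]
        exact Finset.card_nsmul_le_sum _ _ _ fun c hc => (Finset.mem_filter.mp hc).2.le
      have h2 : ∑ c ∈ (box ι H).filter (fun c => C / δ < M c), M c ≤
          ∑ c ∈ box ι H, M c :=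
        Finset.sum_le_sum_of_subset_of_nonneg (Finset.filter_subset _ _) fun c _ _ => hM0 c
      have h3 := (h1.trans h2).trans hsum
      rw [mul_div_assoc', div_le_iff₀ hδ] at h3
      have h4 : C * (((box ι H).filter (fun c => C / δ < M c)).card : ℝ) ≤
          C * (δ * (box ι H).card) := by linarith
      exact le_of_mul_le_mul_left h4 hC
    · intro c hc u hu
      rw [Finset.mem_sdiff, Finset.mem_filter, not_and, not_lt] at hc
      exact Real.le_sqrt_of_sq_le ((hM2 c u hu).trans (hc.2 hc.1))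

/-- the rectangle `1/log H ≤ Re u ≤ 1`, `|Im u| ≤ T` -/
def rect (H : ℕ) (t : ℝ) : Set ℂ := {u | 1 / Real.log H ≤ u.re ∧ u.re ≤ 1 ∧ |u.im| ≤ t}

/-- **The mean square of the supremum.** -/
theorem Pow.avg (h : Pow D w p0 T Bad) : ∃ C : ℝ, 0 < C ∧ ∀ H : ℕ, 2 ≤ H → ∀ t : ℝ, 0 ≤ t →
    (∀ S ⊆ box ι H, ∀ u : (ι → ℤ) → ℂ, (∀ c ∈ S, u c ∈ rect H t) →
      ∑ c ∈ S, ‖∑' p : Nat.Primes, lamT w p0 T Bad c p (u c)‖ ^ 2 ≤ C * (1 + t) * (box ι H).card) ∧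
    (∀ δ : ℝ, 0 < δ → ∃ X ⊆ box ι H, (X.card : ℝ) ≤ δ * (box ι H).card ∧
      ∀ c ∈ box ι H \ X, ∀ u ∈ rect H t,
        ‖∑' p : Nat.Primes, lamT w p0 T Bad c p u‖ ≤ Real.sqrt (C * (1 + t) / δ)) := by
  obtain ⟨C, hC, h1⟩ := Pool.Agent.N534.LF.majorant h.fam (β := 2 * D) (by linarith [h.D1])
  refine ⟨C, hC, fun H hH t ht => ?_⟩
  obtain ⟨M, hM0, hM1, hM2⟩ := h1 H hH t ht
  exact avg_of (C * (1 + t)) (by positivity) H (fun c u => ∑' p : Nat.Primes, lamT w p0 T Bad c p u)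
    (rect H t) M hM0 hM1 (fun c u hu => hM2 c _ (h.loc c) u hu.1 hu.2.1 hu.2.2)

/-- the sum over the primes converges to the right of the edge -/
theorem Pow.summable_lam (h : Pow D w p0 T Bad) (c : ι → ℤ) {u : ℂ} (hu : 0 < u.re) :
    Summable fun p : Nat.Primes => lamT w p0 T Bad c p u :=
  (h.loc c).summable hu

theorem Pow.exp_lam (h : Pow D w p0 T Bad) (c : ι → ℤ) {u : ℂ} (hu : 0 < u.re) :
    ∏' p : Nat.Primes, Complex.exp (lamT w p0 T Bad c p u) =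
      Complex.exp (∑' p : Nat.Primes, lamT w p0 T Bad c p u) :=
  (h.summable_lam c hu).hasSum.cexp.tprod_eq

end Pool.Agent.N534.PS
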