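import Pool.Agent.N534.LL.Final

/-!
# Euler products given by power sums which depend on residue classes
-/

set_option autoImplicit false

namespace Pool.Agent.N534.PS

open Finset Filter Topology
open Pool.Agent.Y722.HS (EM red box EB EM_mono EM_const p_pos)
open Pool.Agent.Y722.LS (Fam bb EM_mul EM_add)
open Pool.Agent.N534.LF (Loc)
open Pool.Agent.N534.LL (Sys)

variable {ι : Type} [Fintype ι] [DecidableEq ι]

/-- Power sums `T p k` of weight `w`, functions on the residue classes modulo `p`, with a set of exceptional classes. -/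
structure Pow (D : ℝ) (w p0 : ℕ) (T : ∀ p : ℕ, ℕ → (ι → ZMod p) → ℝ) (Bad : ∀ p : ℕ, (ι → ZMod p) → Prop) :
    Prop where
  D1 : 1 ≤ D
  bdk : ∀ (p : ℕ) [Fact p.Prime], p0 ≤ p → ∀ k : ℕ, 1 ≤ k → ∀ r, ¬ Bad p r →
    |T p k r| ≤ D * (p : ℝ) ^ ((k : ℝ) * ((w : ℝ) / 2))
  bd1 : ∀ (p : ℕ) [Fact p.Prime], p0 ≤ p → ∀ r, |T p 1 r| ≤ D * (p : ℝ) ^ ((w : ℝ) / 2)
  mean : ∀ (p : ℕ) [Fact p.Prime], p0 ≤ p → |EM p (T p 1)| ≤ D * (p : ℝ) ^ ((w : ℝ) / 2) / p
  bad : ∀ (p : ℕ) [Fact p.Prime], p0 ≤ p →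
    EM p (fun r => open Classical in if Bad p r then (1 : ℝ) else 0) ≤ D / p

variable {D : ℝ} {w p0 : ℕ} {T : ∀ p : ℕ, ℕ → (ι → ZMod p) → ℝ} {Bad : ∀ p : ℕ, (ι → ZMod p) → Prop}

open Classical in
/-- the main term -/
noncomputable def NT (w p0 : ℕ) (T : ∀ p : ℕ, ℕ → (ι → ZMod p) → ℝ) (p : ℕ) (r : ι → ZMod p) : ℝ :=
  if p.Prime ∧ p0 ≤ p then T p 1 r / (p : ℝ) ^ (1 + (w : ℝ) / 2) else 0

open Classical in
/-- the exceptional classes -/
noncomputable def BT (p0 : ℕ) (Bad : ∀ p : ℕ, (ι → ZMod p) → Prop) (p : ℕ) (r : ι → ZMod p) : ℝ :=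
  if p.Prime ∧ p0 ≤ p ∧ ¬ Bad p r then 0 else 1

/-- the terms of the logarithm of the Euler factor -/
noncomputable def trm (w : ℕ) (T : ∀ p : ℕ, ℕ → (ι → ZMod p) → ℝ) (p : ℕ) (r : ι → ZMod p) (u : ℂ) (k : ℕ) : ℂ :=
  (T p (k + 1) r : ℂ) / ((k : ℂ) + 1) * (p : ℂ) ^ (-(((k : ℂ) + 1) * (1 + (w : ℂ) / 2 + u)))

open Classical in
/-- the logarithm of the Euler factor -/
noncomputable def lamT (w p0 : ℕ) (T : ∀ p : ℕ, ℕ → (ι → ZMod p) → ℝ) (Bad : ∀ p : ℕ, (ι → ZMod p) → Prop)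
    (c : ι → ℤ) (p : ℕ) (u : ℂ) : ℂ :=
  if p.Prime ∧ p0 ≤ p ∧ ¬ Bad p (red p c) then ∑' k : ℕ, trm w T p (red p c) u k else 0

theorem p_two (p : ℕ) [hp : Fact p.Prime] : (2 : ℝ) ≤ p := by exact_mod_cast hp.out.two_le

omit [DecidableEq ι] in
theorem trm_le (p : ℕ) [hp : Fact p.Prime] (r : ι → ZMod p) (k : ℕ) (u : ℂ)
    (hT : |T p (k + 1) r| ≤ D * (p : ℝ) ^ (((k + 1 : ℕ) : ℝ) * ((w : ℝ) / 2))) (hD : 0 ≤ D) :
    ‖trm w T p r u k‖ ≤ D * ((p : ℝ) ^ (-1 - u.re)) ^ (k + 1) := by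
  have hp0 : (0 : ℝ) < p := by have := p_two p; linarith
  unfold trm
  rw [norm_mul, norm_div, Complex.norm_real, Real.norm_eq_abs, Complex.norm_natCast_cpow_of_pos hp.out.pos]
  have h1 : (-(((k : ℂ) + 1) * (1 + (w : ℂ) / 2 + u))).re = -(((k : ℝ) + 1) * (1 + (w : ℝ) / 2 + u.re)) := by
    have h2 : ((k : ℂ) + 1) = (((k : ℝ) + 1 : ℝ) : ℂ) := by push_cast; rfl
    rw [h2, Complex.neg_re, Complex.re_ofReal_mul]
    have h3 : (1 + (w : ℂ) / 2 + u).re = 1 + (w : ℝ) / 2 + u.re := by simp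
    rw [h3]
  have h2 : ‖((k : ℂ) + 1)‖ = (k : ℝ) + 1 := by
    have : ((k : ℂ) + 1) = (((k : ℝ) + 1 : ℝ) : ℂ) := by push_cast; rfl
    rw [this, Complex.norm_real, Real.norm_eq_abs, abs_of_pos (by positivity)]
  rw [h1, h2]
  have h3 : |T p (k + 1) r| / ((k : ℝ) + 1) ≤ D * (p : ℝ) ^ (((k + 1 : ℕ) : ℝ) * ((w : ℝ) / 2)) := by
    rw [div_le_iff₀ (by positivity)]
    have h4 : 0 ≤ D * (p : ℝ) ^ (((k + 1 : ℕ) : ℝ) * ((w : ℝ) / 2)) := by positivity
    have h5 : (0 : ℝ) ≤ k := by positivity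
    nlinarith
  calc _ ≤ (D * (p : ℝ) ^ (((k + 1 : ℕ) : ℝ) * ((w : ℝ) / 2))) *
        (p : ℝ) ^ (-(((k : ℝ) + 1) * (1 + (w : ℝ) / 2 + u.re))) := by gcongr
    _ = D * ((p : ℝ) ^ (((k + 1 : ℕ) : ℝ) * ((w : ℝ) / 2)) *
        (p : ℝ) ^ (-(((k : ℝ) + 1) * (1 + (w : ℝ) / 2 + u.re)))) := by ring
    _ = D * ((p : ℝ) ^ (-1 - u.re)) ^ (k + 1) := by
        rw [← Real.rpow_add hp0, ← Real.rpow_natCast, ← Real.rpow_mul hp0.le]
        congr 2
        push_cast
        ring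

theorem x_le (p : ℕ) [hp : Fact p.Prime] (u : ℂ) (hu : 0 ≤ u.re) : (p : ℝ) ^ (-1 - u.re) ≤ 1 / p := by
  have h2 := p_two p
  rw [one_div, ← Real.rpow_neg_one]
  exact Real.rpow_le_rpow_of_exponent_le (by linarith) (by linarith)

theorem x_half (p : ℕ) [hp : Fact p.Prime] (u : ℂ) (hu : 0 ≤ u.re) : (p : ℝ) ^ (-1 - u.re) ≤ 1 / 2 := by
  refine (x_le p u hu).trans ?_
  have h2 := p_two p
  exact one_div_le_one_div_of_le (by norm_num) h2

/-- the sum of a geometric series -/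
theorem geo_le {x : ℝ} (h0 : 0 ≤ x) (h1 : x ≤ 1 / 2) (n : ℕ) :
    Summable (fun k : ℕ => x ^ (k + n)) ∧ ∑' k : ℕ, x ^ (k + n) ≤ 2 * x ^ n := by
  have h2 : Summable (fun k : ℕ => x ^ k) := summable_geometric_of_lt_one h0 (by linarith)
  have h3 : (fun k : ℕ => x ^ (k + n)) = fun k => x ^ k * x ^ n := by
    funext k
    rw [pow_add]
  rw [h3]
  refine ⟨h2.mul_right _, ?_⟩
  rw [tsum_mul_right, tsum_geometric_of_lt_one h0 (by linarith)]
  have h4 : (1 - x)⁻¹ ≤ 2 := by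
    rw [inv_le_comm₀ (by linarith) (by norm_num)]
    linarith
  gcongr

section
variable (h : Pow D w p0 T Bad)
include h

theorem Pow.summable (p : ℕ) [hp : Fact p.Prime] (hpp : p0 ≤ p) (r : ι → ZMod p) (hr : ¬ Bad p r) (u : ℂ)
    (hu : 0 ≤ u.re) : Summable (trm w T p r u) := by
  have h1 := (geo_le (by positivity) (x_half p u hu) 1).1.mul_left D
  refine Summable.of_norm_bounded h1 fun k => ?_
  exact trm_le p r k u (h.bdk p hpp (k + 1) (by omega) r hr) (by linarith [h.D1])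

theorem Pow.tsum_le (p : ℕ) [hp : Fact p.Prime] (hpp : p0 ≤ p) (r : ι → ZMod p) (hr : ¬ Bad p r) (u : ℂ)
    (hu : 0 ≤ u.re) : ‖∑' k : ℕ, trm w T p r u k‖ ≤ 2 * D * (p : ℝ) ^ (-1 - u.re) := by
  have h0 := geo_le (x := (p : ℝ) ^ (-1 - u.re)) (by positivity) (x_half p u hu) 1
  have h1 := h0.1.mul_left D
  refine (tsum_of_norm_bounded h1.hasSum fun k =>
    trm_le p r k u (h.bdk p hpp (k + 1) (by omega) r hr) (by linarith [h.D1])).trans ?_
  rw [tsum_mul_left]
  have h2 := mul_le_mul_of_nonneg_left h0.2 (by linarith [h.D1] : (0 : ℝ) ≤ D)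
  rw [pow_one] at h2
  linarith

theorem Pow.tail_le (p : ℕ) [hp : Fact p.Prime] (hpp : p0 ≤ p) (r : ι → ZMod p) (hr : ¬ Bad p r) (u : ℂ)
    (hu : 0 ≤ u.re) : ‖(∑' k : ℕ, trm w T p r u k) - trm w T p r u 0‖ ≤ 2 * D * (1 / (p : ℝ) ^ 2) := by
  have hs := h.summable p hpp r hr u hu
  have h0 := geo_le (x := (p : ℝ) ^ (-1 - u.re)) (by positivity) (x_half p u hu) 2
  have h1 := h0.1.mul_left D
  rw [hs.tsum_eq_zero_add, add_sub_cancel_left]
  refine (tsum_of_norm_bounded h1.hasSum fun k => ?_).trans ?_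
  · exact trm_le p r (k + 1) u (h.bdk p hpp (k + 1 + 1) (by omega) r hr) (by linarith [h.D1])
  · rw [tsum_mul_left]
    have h2 := mul_le_mul_of_nonneg_left h0.2 (by linarith [h.D1] : (0 : ℝ) ≤ D)
    have h3 : ((p : ℝ) ^ (-1 - u.re)) ^ 2 ≤ (1 / (p : ℝ)) ^ 2 := by
      have := x_le p u hu
      gcongr
    rw [div_pow, one_pow] at h3
    have h4 := mul_le_mul_of_nonneg_left h3 (by linarith [h.D1] : (0 : ℝ) ≤ D)
    linarith

theorem Pow.trm_zero (p : ℕ) [hp : Fact p.Prime] (hpp : p0 ≤ p) (r : ι → ZMod p) (u : ℂ) :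
    trm w T p r u 0 = (p : ℂ) ^ (-u) * (NT w p0 T p r : ℂ) := by
  have hp0 : (0 : ℝ) < p := by have := p_two p; linarith
  have hpc : (p : ℂ) ≠ 0 := by exact_mod_cast hp.out.ne_zero
  unfold trm NT
  rw [if_pos ⟨hp.out, hpp⟩]
  have e1 : (-((((0 : ℕ) : ℂ) + 1) * (1 + (w : ℂ) / 2 + u))) = -u + -(1 + (w : ℂ) / 2) := by
    push_cast
    ring
  rw [e1, Complex.cpow_add _ _ hpc]
  have e2 : (p : ℂ) ^ (-(1 + (w : ℂ) / 2)) = (((p : ℝ) ^ (1 + (w : ℝ) / 2))⁻¹ : ℝ) := by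
    rw [← Real.rpow_neg hp0.le, Complex.ofReal_cpow hp0.le]
    push_cast
    rfl
  rw [e2]
  push_cast
  simp only [zero_add, div_one]
  ring

omit h in
theorem NT_abs (p : ℕ) [hp : Fact p.Prime] (r : ι → ZMod p) (hD : 0 ≤ D)
    (hb : p0 ≤ p → |T p 1 r| ≤ D * (p : ℝ) ^ ((w : ℝ) / 2)) : |NT w p0 T p r| ≤ D / p := by
  have hp0 : (0 : ℝ) < p := by have := p_two p; linarith
  unfold NT
  split_ifs with h1
  · rw [abs_div, abs_of_pos (by positivity : (0 : ℝ) < (p : ℝ) ^ (1 + (w : ℝ) / 2)),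
      div_le_div_iff₀ (by positivity) hp0]
    have h2 : (p : ℝ) ^ (1 + (w : ℝ) / 2) = p * (p : ℝ) ^ ((w : ℝ) / 2) := by
      rw [Real.rpow_add hp0, Real.rpow_one]
    rw [h2]
    have := mul_le_mul_of_nonneg_right (hb h1.2) hp0.le
    linarith
  · rw [abs_zero]
    positivity

theorem Pow.fam : Fam (1 + p0 + D + D ^ 2) (NT w p0 T) (BT p0 Bad) where
  A0 := by
    have := h.D1
    have : 0 ≤ (p0 : ℝ) + D + D ^ 2 := by positivity
    linarith
  sq := by
    intro p hp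
    have hp0 := p_pos (p := p)
    have hD := h.D1
    have h1 : EM p (fun c => NT w p0 T p c ^ 2) ≤ EM p (fun _ : ι → ZMod p => (D / p) ^ 2) := by
      apply EM_mono
      intro c
      rw [← sq_abs]
      have := NT_abs (w := w) (p0 := p0) (T := T) p c (by linarith : (0 : ℝ) ≤ D) (fun hpp => h.bd1 p hpp c)
      gcongr
    refine h1.trans ?_
    rw [EM_const, div_pow]
    have : 0 ≤ 1 + (p0 : ℝ) + D := by positivity
    gcongr
    linarith
  mean := by
    intro p hp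
    have hp0 := p_pos (p := p)
    have hD := h.D1
    by_cases hpp : p0 ≤ p
    · have e1 : (fun c => NT w p0 T p c) = fun c => (1 / (p : ℝ) ^ (1 + (w : ℝ) / 2)) * T p 1 c := by
        funext c
        unfold NT
        rw [if_pos ⟨hp.out, hpp⟩]
        ring
      rw [e1, EM_mul, abs_mul, abs_of_pos (by positivity)]
      have h2 : (p : ℝ) ^ (1 + (w : ℝ) / 2) = p * (p : ℝ) ^ ((w : ℝ) / 2) := by
        rw [Real.rpow_add hp0, Real.rpow_one]
      have h3 := h.mean p hpp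
      have h4 : 1 / (p : ℝ) ^ (1 + (w : ℝ) / 2) * |EM p (T p 1)| ≤
          1 / (p : ℝ) ^ (1 + (w : ℝ) / 2) * (D * (p : ℝ) ^ ((w : ℝ) / 2) / p) := by gcongr
      refine h4.trans ?_
      rw [h2]
      have h5 : 1 / (p * (p : ℝ) ^ ((w : ℝ) / 2)) * (D * (p : ℝ) ^ ((w : ℝ) / 2) / p) = D / (p : ℝ) ^ 2 := by
        have : (p : ℝ) ^ ((w : ℝ) / 2) ≠ 0 := by positivity
        field_simp
      rw [h5]
      have : 0 ≤ 1 + (p0 : ℝ) + D ^ 2 := by positivity
      gcongr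
      linarith
    · have e1 : (fun c => NT w p0 T p c) = fun _ : ι → ZMod p => 0 := by
        funext c
        unfold NT
        rw [if_neg (fun h => hpp h.2)]
      rw [e1, EM_const, abs_zero]
      positivity
  nonneg := by
    intro p c
    unfold BT
    split_ifs <;> norm_num
  le_one := by
    intro p c
    unfold BT
    split_ifs <;> norm_num
  bad := by
    intro p hp
    classical
    have hp0 := p_pos (p := p)
    have hD := h.D1
    by_cases hpp : p0 ≤ p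
    · have e1 : (fun c => BT p0 Bad p c) = fun c => if Bad p c then (1 : ℝ) else 0 := by
        funext c
        unfold BT
        by_cases hb : Bad p c
        · rw [if_neg (fun h => h.2.2 hb), if_pos hb]
        · rw [if_pos ⟨hp.out, hpp, hb⟩, if_neg hb]
      rw [e1]
      refine (h.bad p hpp).trans ?_
      have : 0 ≤ 1 + (p0 : ℝ) + D ^ 2 := by positivity
      gcongr
      linarith
    · have e1 : (fun c => BT p0 Bad p c) = fun _ : ι → ZMod p => 1 := by
        funext c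
        unfold BT
        rw [if_neg (fun h => hpp h.2.1)]
      rw [e1, EM_const, le_div_iff₀ hp0, one_mul]
      have h3 : (p : ℝ) ≤ p0 := by
        have : p ≤ p0 := by omega
        exact_mod_cast this
      have : 0 ≤ D + D ^ 2 := by positivity
      linarith

theorem Pow.loc (c : ι → ℤ) : Loc (2 * D) (NT w p0 T) (BT p0 Bad) c (lamT w p0 T Bad c) where
  near := by
    intro p hp u hu
    have hfp : Fact p.Prime := ⟨hp⟩
    have hp2 := p_two p
    have hp0 : (0 : ℝ) < p := by linarith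
    have hD := h.D1
    by_cases hb : p0 ≤ p ∧ ¬ Bad p (red p c)
    · have e1 : lamT w p0 T Bad c p u = ∑' k : ℕ, trm w T p (red p c) u k := by
        unfold lamT
        exact if_pos ⟨hp, hb.1, hb.2⟩
      rw [e1, ← h.trm_zero p hb.1]
      refine (h.tail_le p hb.1 (red p c) hb.2 u hu).trans ?_
      have h8 : 1 / (p : ℝ) ^ 2 ≤ 1 / (p : ℝ) ^ ((3 : ℝ) / 2) := by
        apply one_div_le_one_div_of_le (by positivity)
        rw [← Real.rpow_natCast]
        exact Real.rpow_le_rpow_of_exponent_le (by linarith) (by norm_num)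
      have h9 : 0 ≤ bb (NT w p0 T) (BT p0 Bad) (2 * D) p (red p c) :=
        h.fam.bb_nonneg (by linarith) p _
      have h10 := mul_le_mul_of_nonneg_left h8 (by linarith : (0 : ℝ) ≤ 2 * D)
      linarith
    · have e1 : lamT w p0 T Bad c p u = 0 := by
        unfold lamT
        exact if_neg (fun h => hb h.2)
      have e2 : BT p0 Bad p (red p c) = 1 := by
        unfold BT
        exact if_neg (fun h => hb h.2)
      rw [e1, zero_sub, norm_neg, norm_mul, Complex.norm_real, Real.norm_eq_abs]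
      have hpu : ‖(p : ℂ) ^ (-u)‖ ≤ 1 := by
        rw [Complex.norm_natCast_cpow_of_pos hp.pos]
        exact Real.rpow_le_one_of_one_le_of_nonpos (by linarith) (by simpa using hu)
      unfold bb
      rw [e2, one_mul]
      have h3 : ‖(p : ℂ) ^ (-u)‖ * |NT w p0 T p (red p c)| ≤ 1 * |NT w p0 T p (red p c)| := by gcongr
      have h4 : 0 ≤ 2 * D / (p : ℝ) := by positivity
      have h5 : 0 ≤ 2 * D * (1 / (p : ℝ) ^ ((3 : ℝ) / 2)) := by positivity
      linarith
  bound := by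
    intro p hp u hu
    have hfp : Fact p.Prime := ⟨hp⟩
    have hD := h.D1
    by_cases hb : p0 ≤ p ∧ ¬ Bad p (red p c)
    · have e1 : lamT w p0 T Bad c p u = ∑' k : ℕ, trm w T p (red p c) u k := by
        unfold lamT
        exact if_pos ⟨hp, hb.1, hb.2⟩
      rw [e1]
      exact h.tsum_le p hb.1 (red p c) hb.2 u hu
    · have e1 : lamT w p0 T Bad c p u = 0 := by
        unfold lamT
        exact if_neg (fun h => hb h.2)
      rw [e1, norm_zero]
      positivity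

/-- **The system.** -/
theorem Pow.sys : Sys (1 + p0 + D + D ^ 2) (2 * D) (NT w p0 T) (BT p0 Bad) (lamT w p0 T Bad) where
  fam := h.fam
  beta := by linarith [h.D1]
  loc := h.loc
  red := by
    intro p hp c c' hcc
    funext u
    unfold lamT
    rw [hcc]
  cont := by
    intro p hp c
    have hfp : Fact p.Prime := ⟨hp⟩
    have hD := h.D1
    by_cases hb : p0 ≤ p ∧ ¬ Bad p (red p c)
    · have e1 : lamT w p0 T Bad c p = fun u => ∑' k : ℕ, trm w T p (red p c) u k := by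
        funext u
        unfold lamT
        exact if_pos ⟨hp, hb.1, hb.2⟩
      rw [e1]
      have h1 := (geo_le (x := (1 / 2 : ℝ)) (by norm_num) le_rfl 1).1.mul_left D
      refine continuousOn_tsum (fun k => ?_) h1 fun k u hu => ?_
      · unfold trm
        have hpc : (p : ℂ) ≠ 0 := by exact_mod_cast hp.ne_zero
        refine Continuous.continuousOn (continuous_const.mul ?_)
        exact Continuous.const_cpow (by fun_prop) (Or.inl hpc)
      · refine (trm_le p (red p c) k u (h.bdk p hb.1 (k + 1) (by omega) (red p c) hb.2) (by linarith)).trans ?_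
        have h2 := x_half p u hu
        have h3 : 0 ≤ (p : ℝ) ^ (-1 - u.re) := by positivity
        gcongr
    · have e1 : lamT w p0 T Bad c p = fun _ => 0 := by
        funext u
        unfold lamT
        exact if_neg (fun h => hb h.2)
      rw [e1]
      exact continuousOn_const

end

end Pool.Agent.N534.PS
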